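import Pool.Agent.H369.TH.Stm

/-! Task DELTA: degeneration to the normal cone of `E × x`. -/

set_option autoImplicit false

namespace Pool.Agent.H118.TH

open Pool.Agent.H369.TH TensorProduct

variable {Γ K : Type} [AddCommGroup Γ] [LinearOrder Γ] [IsOrderedAddMonoid Γ] [Field K]

theorem Tl_apply (a : Pt Γ K) (l : ℕ) (f : Ent Γ K) : Tl a l f = PowerSeries.coeff l (T a f) := rfl

theorem pe_tmul (x : Pt Γ K) (l : ℕ) (f h : Ent Γ K) : pe x l (f ⊗ₜ[HG Γ K] h) = Tl x l h • f := by
  simp [pe]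

theorem pe'_tmul (x : Pt Γ K) (l : ℕ) (f h : Ent Γ K) : pe' x l (f ⊗ₜ[HG Γ K] h) = Tl x l f • h := by
  simp [pe']

theorem tt_tmul (x y : Pt Γ K) (a b : ℕ) (f h : Ent Γ K) :
    tt x y a b (f ⊗ₜ[HG Γ K] h) = Tl x a f * Tl y b h := by
  simp [tt]

theorem pe'_eq (x : Pt Γ K) (l : ℕ) (H : Ent Γ K ⊗[HG Γ K] Ent Γ K) :
    pe' x l H = pe x l (TensorProduct.comm (HG Γ K) (Ent Γ K) (Ent Γ K) H) := by
  induction H using TensorProduct.induction_on with
  | zero => simp
  | tmul f h => rw [pe'_tmul, TensorProduct.comm_tmul, pe_tmul]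
  | add a b ha hb => rw [map_add, map_add, map_add, ha, hb]

theorem tt_eq (x y : Pt Γ K) (a b : ℕ) (H : Ent Γ K ⊗[HG Γ K] Ent Γ K) :
    tt x y a b H = Tl x a (pe y b H) := by
  induction H using TensorProduct.induction_on with
  | zero => simp
  | tmul f h => rw [tt_tmul, pe_tmul, map_smul, smul_eq_mul, mul_comm]
  | add a b ha hb => rw [map_add, map_add, map_add, ha, hb]

theorem pe_inj {x : Pt Γ K} (hx : Function.Injective (T x)) (H : Ent Γ K ⊗[HG Γ K] Ent Γ K)
    (h : ∀ l, pe x l H = 0) : H = 0 := by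
  classical
  let B := Module.Basis.ofVectorSpace (HG Γ K) (Ent Γ K)
  obtain ⟨b, hb⟩ := TensorProduct.eq_repr_basis_left B H
  have h1 : ∀ l, ∑ i ∈ b.support, Tl x l (b i) • B i = 0 := by
    intro l
    have := h l
    rw [← hb, Finsupp.sum, map_sum] at this
    simpa only [pe_tmul] using this
  have h2 : ∀ i, b i = 0 := by
    intro i
    by_contra hi
    apply hi
    apply hx
    rw [map_zero]
    ext1 l
    rw [map_zero]
    have h3 := linearIndependent_iff'.1 B.linearIndependent b.support (fun i => Tl x l (b i)) (h1 l) i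
      (Finsupp.mem_support_iff.2 hi)
    exact h3
  rw [← hb]
  have : b = 0 := Finsupp.ext h2
  rw [this]
  simp

theorem delta (h1 : S_rules) (h2 : S_T) (h3 : S_AB) : S_delta := by
  have _ := h1
  intro Γ K _ _ _ _ _ P hP n γ c x m p hp ζ κ hκ G hG hsym hdv hnode hne
  classical
  obtain ⟨hTinj, -⟩ := h2 Γ K
  -- the minimal `s`
  have hex : ∃ s a b l, a + l = s ∧ pe x l (G a b) ≠ 0 := by
    obtain ⟨a, b, hab⟩ := hne
    have : ∃ l, pe x l (G a b) ≠ 0 := by
      by_contra hcon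
      push Not at hcon
      exact hab (pe_inj (hTinj x) _ hcon)
    obtain ⟨l, hl⟩ := this
    exact ⟨a + l, a, b, l, rfl, hl⟩
  obtain ⟨s, ⟨a0, b0, l0, hs0, hs1⟩, hmin⟩ : ∃ s, (∃ a b l, a + l = s ∧ pe x l (G a b) ≠ 0) ∧
      ∀ s' < s, ¬ ∃ a b l, a + l = s' ∧ pe x l (G a b) ≠ 0 :=
    ⟨Nat.find hex, Nat.find_spec hex, fun s' hs' => Nat.find_min hex hs'⟩
  have hlow : ∀ a b l, a + l < s → pe x l (G a b) = 0 := by
    intro a b l hal
    by_contra hcon
    exact hmin _ hal ⟨a, b, l, rfl, hcon⟩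
  have hAB : ∀ j b : ℕ, j ≤ s →
      (∃ Φ ∈ Th P ((n : ℤ) - j - γ) (c * ng x ^ (-((j : ℤ) + γ))),
        pe x j (G (s - j) b) = theta P x ^ (j + γ) * Φ) ∧ ((n : ℤ) < j + 2 * γ → G (s - j) b = 0) := by
    intro j b hj
    have k1 : ∀ l < j, pe x l (G (s - j) b) = 0 := fun l hl => hlow _ _ _ (by omega)
    refine h3 Γ K P hP n c x j γ (G (s - j) b) (hG _ _) k1 ?_ (hdv _ _)
    intro l hl
    rw [pe'_eq, hsym, map_smul, k1 l hl, smul_def', mul_zero]
  have hch : ∀ j b : ℕ, ∃ Φ : Ent Γ K, Φ ∈ Th P ((n : ℤ) - (j : ℤ) - γ) (c * ng x ^ (-((j : ℤ) + γ))) ∧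
      (n < j + 2 * γ → Φ = 0) ∧ (s < j → Φ = 0) ∧
      (j ≤ s → pe x j (G (s - j) b) = theta P x ^ (j + γ) * Φ) := by
    intro j b
    by_cases hj : j ≤ s
    · obtain ⟨⟨Φ, k1, k2⟩, k3⟩ := hAB j b hj
      by_cases hn : n < j + 2 * γ
      · refine ⟨0, Submodule.zero_mem _, fun _ => rfl, fun _ => rfl, fun _ => ?_⟩
        rw [k3 (by exact_mod_cast hn), map_zero, mul_zero]
      · exact ⟨Φ, k1, fun h => absurd h hn, fun h => absurd h (not_lt.2 hj), fun _ => k2⟩
    · exact ⟨0, Submodule.zero_mem _, fun _ => rfl, fun _ => rfl, fun h => absurd h hj⟩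
  choose Φ hΦ1 hΦ2 hΦ3 hΦ4 using hch
  have hΦne : Φ l0 b0 ≠ 0 := by
    intro h0
    apply hs1
    have h4 := hΦ4 l0 b0 (by omega)
    have e : s - l0 = a0 := by omega
    rw [e, h0, mul_zero] at h4
    exact h4
  have hn : l0 + 2 * γ ≤ n := by
    by_contra hcon
    exact hΦne (hΦ2 _ _ (by omega))
  refine ⟨by omega, Φ, hΦ1, hΦ2, ⟨l0, b0, hΦne⟩, ?_⟩
  intro i a' b' hab
  -- the relation with the unit
  set U : PowerSeries (HG Γ K) := T (p i) (theta P x) ^ γ with hU
  have hUu : IsUnit U := by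
    rw [hU]
    apply IsUnit.pow
    rw [PowerSeries.isUnit_iff_constantCoeff, isUnit_iff_ne_zero,
      ← PowerSeries.coeff_zero_eq_constantCoeff_apply]
    exact hp i
  obtain ⟨V, hV⟩ := hUu.exists_right_inv
  have hrel : ∀ a'' : ℕ, a'' + b' < γ → ∑ j ∈ Finset.range (s + 1),
      (j.choose b' : PowerSeries (HG Γ K)) * ζ i ^ (j - b') *
        PowerSeries.mk (fun b => PowerSeries.coeff a'' (U * T (p i) (theta P x ^ j * Φ j b))) = 0 := by
    intro a'' ha''
    rw [← hnode i a'' b' s ha'']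
    refine Finset.sum_congr rfl fun j hj => ?_
    rw [Finset.mem_range] at hj
    congr 1
    congr 1
    funext b
    rw [tt_eq, hΦ4 j b (by omega), Tl_apply, hU, ← map_pow, ← map_mul]
    congr 2
    rw [pow_add]
    ring
  have hrel2 : ∑ j ∈ Finset.range (s + 1), (j.choose b' : PowerSeries (HG Γ K)) * ζ i ^ (j - b') *
      PowerSeries.mk (fun b => PowerSeries.coeff a' (T (p i) (theta P x ^ j * Φ j b))) = 0 := by
    have e1 : ∀ j, PowerSeries.mk (fun b => PowerSeries.coeff a' (T (p i) (theta P x ^ j * Φ j b))) =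
        ∑ q ∈ Finset.HasAntidiagonal.antidiagonal a', PowerSeries.C (PowerSeries.coeff q.1 V) *
          PowerSeries.mk (fun b => PowerSeries.coeff q.2 (U * T (p i) (theta P x ^ j * Φ j b))) := by
      intro j
      ext1 b
      rw [PowerSeries.coeff_mk, map_sum]
      have e2 : T (p i) (theta P x ^ j * Φ j b) = V * (U * T (p i) (theta P x ^ j * Φ j b)) := by
        rw [← mul_assoc, mul_comm V U, hV, one_mul]
      conv_lhs => rw [e2]
      rw [PowerSeries.coeff_mul]
      refine Finset.sum_congr rfl fun q _ => ?_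
      rw [PowerSeries.coeff_C_mul, PowerSeries.coeff_mk]
    calc _ = ∑ j ∈ Finset.range (s + 1), ∑ q ∈ Finset.HasAntidiagonal.antidiagonal a',
          PowerSeries.C (PowerSeries.coeff q.1 V) * ((j.choose b' : PowerSeries (HG Γ K)) * ζ i ^ (j - b') *
          PowerSeries.mk (fun b => PowerSeries.coeff q.2 (U * T (p i) (theta P x ^ j * Φ j b)))) := by
          refine Finset.sum_congr rfl fun j _ => ?_
          rw [e1, Finset.mul_sum]
          refine Finset.sum_congr rfl fun q _ => ?_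
          ring
      _ = 0 := by
          rw [Finset.sum_comm]
          refine Finset.sum_eq_zero fun q hq => ?_
          rw [Finset.HasAntidiagonal.mem_antidiagonal] at hq
          rw [← Finset.mul_sum, hrel q.2 (by omega), mul_zero]
  -- change of the range
  have hz : ∀ j, (s < j ∨ n < j + 2 * γ) → (j.choose b' : PowerSeries (HG Γ K)) * ζ i ^ (j - b') *
      PowerSeries.mk (fun b => PowerSeries.coeff a' (T (p i) (theta P x ^ j * Φ j b))) = 0 := by
    intro j hj
    have : ∀ b, Φ j b = 0 := by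
      intro b
      rcases hj with hj | hj
      · exact hΦ3 j b hj
      · exact hΦ2 j b hj
    have e : PowerSeries.mk (fun b => PowerSeries.coeff a' (T (p i) (theta P x ^ j * Φ j b))) = 0 := by
      ext1 b
      rw [PowerSeries.coeff_mk, this b, mul_zero, map_zero, map_zero, map_zero]
    rw [e, mul_zero]
  rw [← hrel2]
  have r1 : ∑ j ∈ Finset.range (n - 2 * γ + 1), (j.choose b' : PowerSeries (HG Γ K)) * ζ i ^ (j - b') *
      PowerSeries.mk (fun b => PowerSeries.coeff a' (T (p i) (theta P x ^ j * Φ j b))) =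
      ∑ j ∈ Finset.range (n + s + 1), (j.choose b' : PowerSeries (HG Γ K)) * ζ i ^ (j - b') *
      PowerSeries.mk (fun b => PowerSeries.coeff a' (T (p i) (theta P x ^ j * Φ j b))) := by
    apply Finset.sum_subset
    · intro j hj
      rw [Finset.mem_range] at hj ⊢
      omega
    · intro j _ hj
      rw [Finset.mem_range] at hj
      exact hz j (Or.inr (by omega))
  have r2 : ∑ j ∈ Finset.range (s + 1), (j.choose b' : PowerSeries (HG Γ K)) * ζ i ^ (j - b') *
      PowerSeries.mk (fun b => PowerSeries.coeff a' (T (p i) (theta P x ^ j * Φ j b))) =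
      ∑ j ∈ Finset.range (n + s + 1), (j.choose b' : PowerSeries (HG Γ K)) * ζ i ^ (j - b') *
      PowerSeries.mk (fun b => PowerSeries.coeff a' (T (p i) (theta P x ^ j * Φ j b))) := by
    apply Finset.sum_subset
    · intro j hj
      rw [Finset.mem_range] at hj ⊢
      omega
    · intro j _ hj
      rw [Finset.mem_range] at hj
      exact hz j (Or.inl (by omega))
  rw [r1, r2]

end Pool.Agent.H118.TH
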